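import Mathlib

/-! # OL, part GA: automorphisms of algebraically closed fields -/

set_option autoImplicit false

namespace Pool.Agent.Helper2.OL

/-- automorphisms extend to an algebraically closed extension -/
theorem ext_aut {A K : Type} [Field A] [Field K] [Algebra A K] [IsAlgClosed K] (σ : A ≃+* A) :
    ∃ τ : K ≃+* K, ∀ x : A, τ (algebraMap A K x) = algebraMap A K (σ x) := by
  obtain ⟨s, hs⟩ := exists_isTranscendenceBasis A K
  have := IsAlgClosed.isAlgClosure_of_transcendence_basis (K := K) (Subtype.val : s → K) hs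
  let e : Algebra.adjoin A (Set.range (Subtype.val : s → K)) ≃+*
      Algebra.adjoin A (Set.range (Subtype.val : s → K)) :=
    hs.1.aevalEquiv.symm.toRingEquiv.trans
      ((MvPolynomial.mapEquiv s σ).trans hs.1.aevalEquiv.toRingEquiv)
  have he : ∀ x : A, e (algebraMap A _ x) = algebraMap A _ (σ x) := by
    intro x
    have h1 : hs.1.aevalEquiv.symm (algebraMap A _ x) = MvPolynomial.C x :=
      hs.1.aevalEquiv.symm.commutes x
    show hs.1.aevalEquiv (MvPolynomial.mapEquiv s σ
      (hs.1.aevalEquiv.symm (algebraMap A _ x))) = _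
    rw [h1]
    have h2 : MvPolynomial.mapEquiv s σ (MvPolynomial.C x) = MvPolynomial.C (σ x) :=
      MvPolynomial.map_C _ _
    rw [h2]
    exact hs.1.aevalEquiv.commutes (σ x)
  refine ⟨IsAlgClosure.equivOfEquiv K K e, fun x => ?_⟩
  have h3 := IsAlgClosure.equivOfEquiv_algebraMap K K e (algebraMap A _ x)
  rw [he x] at h3
  exact h3

theorem exists_aut_alg {K₀ K : Type} [Field K₀] [Field K] [CharZero K₀] [Algebra K₀ K]
    [IsAlgClosed K] {c : K} (hc : c ∉ Set.range (algebraMap K₀ K)) (hal : IsAlgebraic K₀ c) :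
    ∃ σ : K ≃ₐ[K₀] K, σ c ≠ c := by
  obtain ⟨A, hA⟩ : ∃ A : IntermediateField K₀ K, A = algebraicClosure K₀ K := ⟨_, rfl⟩
  have hcl : IsAlgClosure K₀ A := by rw [hA]; infer_instance
  have hN : Normal K₀ A := IsAlgClosure.normal K₀ A
  have hcA : c ∈ A := by
    rw [hA, mem_algebraicClosure_iff]
    exact hal
  have hsep : Algebra.IsSeparable K₀ A := by
    have := hcl.isAlgebraic
    infer_instance
  have hx : (⟨c, hcA⟩ : A) ∉ (⊥ : Subalgebra K₀ A) := by
    rw [Algebra.mem_bot]
    rintro ⟨y, hy⟩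
    apply hc
    refine ⟨y, ?_⟩
    have := congrArg (algebraMap A K) hy
    rw [← IsScalarTower.algebraMap_apply] at this
    exact this
  obtain ⟨y, hy1, hy2⟩ := (notMem_iff_exists_ne_and_isConjRoot
    (Algebra.IsSeparable.isSeparable K₀ (⟨c, hcA⟩ : A)) (hN.splits _)).1 hx
  obtain ⟨σ, hσ⟩ := isConjRoot_iff_exists_algEquiv.1 hy2
  obtain ⟨τ, hτ⟩ := ext_aut (K := K) σ.symm.toRingEquiv
  refine ⟨AlgEquiv.ofRingEquiv (f := τ) fun r => ?_, ?_⟩
  · have h1 := hτ (algebraMap K₀ A r)
    rw [← IsScalarTower.algebraMap_apply] at h1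
    rw [h1]
    have h2 : σ.symm.toRingEquiv (algebraMap K₀ A r) = algebraMap K₀ A r := σ.symm.commutes r
    rw [h2, ← IsScalarTower.algebraMap_apply]
  · intro h
    have h1 := hτ ⟨c, hcA⟩
    have h2 : σ.symm.toRingEquiv ⟨c, hcA⟩ = y := by
      rw [← hσ]
      exact σ.symm_apply_apply y
    rw [h2] at h1
    have h3 : algebraMap A K ⟨c, hcA⟩ = algebraMap A K y := Eq.trans h.symm h1
    exact hy1 ((algebraMap A K).injective h3)

theorem exists_aut_tr {K₀ K : Type} [Field K₀] [Field K] [CharZero K₀] [Algebra K₀ K]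
    [IsAlgClosed K] {c : K} (htr : Transcendental K₀ c) :
    ∃ σ : K ≃ₐ[K₀] K, σ c ≠ c := by
  classical
  have hin : AlgebraicIndepOn K₀ id ({c} : Set K) :=
    (algebraicIndependent_singleton_iff (⟨c, rfl⟩ : ({c} : Set K))).2 htr
  obtain ⟨t, hct, ht⟩ := exists_isTranscendenceBasis_superset hin
  have hc : c ∈ t := hct rfl
  have := IsAlgClosed.isAlgClosure_of_transcendence_basis (K := K) (Subtype.val : t → K) ht
  let i₀ : t := ⟨c, hc⟩
  let u : MvPolynomial t K₀ ≃ₐ[K₀] MvPolynomial t K₀ := AlgEquiv.ofAlgHom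
    (MvPolynomial.aeval fun i => MvPolynomial.X i + MvPolynomial.C (if i = i₀ then 1 else 0))
    (MvPolynomial.aeval fun i => MvPolynomial.X i - MvPolynomial.C (if i = i₀ then 1 else 0))
    (by
      ext i
      simp)
    (by
      ext i
      simp)
  let e : Algebra.adjoin K₀ (Set.range (Subtype.val : t → K)) ≃ₐ[K₀]
      Algebra.adjoin K₀ (Set.range (Subtype.val : t → K)) :=
    ht.1.aevalEquiv.symm.trans (u.trans ht.1.aevalEquiv)
  have he : algebraMap _ K (e (ht.1.aevalEquiv (MvPolynomial.X i₀))) = c + 1 := by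
    show algebraMap _ K (ht.1.aevalEquiv (u (ht.1.aevalEquiv.symm
      (ht.1.aevalEquiv (MvPolynomial.X i₀))))) = c + 1
    rw [AlgEquiv.symm_apply_apply, AlgebraicIndependent.algebraMap_aevalEquiv]
    have h1 : u (MvPolynomial.X i₀) = MvPolynomial.X i₀ + MvPolynomial.C 1 := by
      show (MvPolynomial.aeval fun i =>
        MvPolynomial.X i + MvPolynomial.C (if i = i₀ then (1 : K₀) else 0)) (MvPolynomial.X i₀) = _
      rw [MvPolynomial.aeval_X, if_pos rfl]
    rw [h1, map_add, MvPolynomial.aeval_X, map_one, map_one]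
  have hg : algebraMap _ K (ht.1.aevalEquiv (MvPolynomial.X i₀)) = c := by
    rw [AlgebraicIndependent.algebraMap_aevalEquiv, MvPolynomial.aeval_X]
  refine ⟨AlgEquiv.ofRingEquiv (f := IsAlgClosure.equivOfEquiv K K e.toRingEquiv) fun r => ?_, ?_⟩
  · have h1 := IsAlgClosure.equivOfEquiv_algebraMap K K e.toRingEquiv (algebraMap K₀ _ r)
    have h2 : e.toRingEquiv (algebraMap K₀ _ r) = algebraMap K₀ _ r := e.commutes r
    rw [h2, ← IsScalarTower.algebraMap_apply] at h1
    exact h1
  · intro h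
    have h1 := IsAlgClosure.equivOfEquiv_algebraMap K K e.toRingEquiv
      (ht.1.aevalEquiv (MvPolynomial.X i₀))
    rw [hg] at h1
    have h2 : c + 1 = c := by
      refine Eq.trans ?_ h
      refine Eq.trans he.symm ?_
      exact h1.symm
    exact one_ne_zero (add_eq_left.1 h2)

theorem exists_aut {K₀ K : Type} [Field K₀] [Field K] [CharZero K₀] [Algebra K₀ K] [IsAlgClosed K]
    {c : K} (hc : c ∉ Set.range (algebraMap K₀ K)) : ∃ σ : K ≃ₐ[K₀] K, σ c ≠ c := by
  by_cases h : IsAlgebraic K₀ c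
  · exact exists_aut_alg hc h
  · exact exists_aut_tr h

end Pool.Agent.Helper2.OL
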